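import Mathlib

namespace Pool.Agent.Results.MP_60b32f_nt.Two

open Finset

/-- `S` is a partition of `n` into distinct primes. -/
def Part (n : ℕ) (S : Finset ℕ) : Prop := (∀ p ∈ S, p.Prime) ∧ ∑ p ∈ S, p = n

def H (r : ℕ) : ℕ := if r = 0 then 2 else if r = 1 then 3 else 2 * r

lemma H1 (r a : ℕ) (ha : 2 ≤ a) : H (r + a) ≤ H r * a := by
  unfold H
  split_ifs <;> first | omega | (have : 2 ≤ r := by omega
                                 nlinarith)

lemma H2 (Q r a t : ℕ) (hQ : 4 ≤ Q) (ha : 2 ≤ a) (haQ : a ≤ Q) (hr : r < Q)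
    (h : r + a = Q + t) : Q * H t ≤ H r * a := by
  obtain ⟨x, rfl⟩ : ∃ x, Q = a + x := ⟨Q - a, by omega⟩
  obtain rfl : r = x + t := by omega
  unfold H
  split_ifs with h1 h2 h3 h4 h5 h6 h7 h8
  · omega
  · omega
  · subst h1
    have : 2 ≤ x := by omega
    nlinarith
  · omega
  · have : x = 0 := by omega
    subst this
    omega
  · subst h4
    have : 1 ≤ x := by omega
    obtain ⟨y, rfl⟩ : ∃ y, x = y + 1 := ⟨x - 1, by omega⟩
    obtain ⟨z, rfl⟩ : ∃ z, a = z + 2 := ⟨a - 2, by omega⟩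
    nlinarith [Nat.zero_le (y * z)]
  · omega
  · omega
  · have : t ≤ a := by omega
    nlinarith [Nat.mul_le_mul_left x this]

lemma L1 (Q : ℕ) (hQ : 4 ≤ Q) (A : Finset ℕ) (h : ∀ a ∈ A, 2 ≤ a ∧ a ≤ Q) :
    ∃ u r, r < Q ∧ ∑ a ∈ A, a = u * Q + r ∧ Q ^ u * H r ≤ 2 * ∏ a ∈ A, a := by
  induction A using Finset.induction_on with
  | empty => exact ⟨0, 0, by omega, by simp, by simp [H]⟩
  | insert a A ha ih =>
    obtain ⟨u, r, hr, hs, hp⟩ := ih fun b hb => h b (mem_insert_of_mem hb)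
    obtain ⟨h2, h3⟩ := h a (mem_insert_self _ _)
    rw [sum_insert ha, prod_insert ha]
    by_cases hc : r + a < Q
    · refine ⟨u, r + a, hc, by omega, ?_⟩
      calc Q ^ u * H (r + a) ≤ Q ^ u * (H r * a) := Nat.mul_le_mul_left _ (H1 r a h2)
        _ = Q ^ u * H r * a := by ring
        _ ≤ (2 * ∏ a ∈ A, a) * a := Nat.mul_le_mul_right _ hp
        _ = _ := by ring
    · obtain ⟨t, ht⟩ : ∃ t, r + a = Q + t := ⟨r + a - Q, by omega⟩
      refine ⟨u + 1, t, by omega, by rw [hs, add_mul]; omega, ?_⟩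
      calc Q ^ (u + 1) * H t = Q ^ u * (Q * H t) := by ring
        _ ≤ Q ^ u * (H r * a) := Nat.mul_le_mul_left _ (H2 Q r a t hQ h2 h3 hr ht)
        _ = Q ^ u * H r * a := by ring
        _ ≤ (2 * ∏ a ∈ A, a) * a := Nat.mul_le_mul_right _ hp
        _ = _ := by ring

lemma L2 (Q w : ℕ) (hQ : 0 < Q) (B : Finset ℕ) (h : ∑ b ∈ B, b ≤ B.card * Q + w * Q) :
    ∏ b ∈ B, b ≤ Q ^ B.card * 3 ^ w := by
  have hq : (0 : ℝ) < Q := by exact_mod_cast hQ
  have h1 : ∏ b ∈ B, (b : ℝ) ≤ ∏ b ∈ B, ((Q : ℝ) * Real.exp ((b : ℝ) / Q - 1)) := by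
    refine prod_le_prod (fun _ _ => by positivity) fun b _ => ?_
    have := Real.add_one_le_exp ((b : ℝ) / Q - 1)
    calc (b : ℝ) = Q * ((b : ℝ) / Q - 1 + 1) := by field_simp; ring
      _ ≤ _ := mul_le_mul_of_nonneg_left this hq.le
  rw [prod_mul_distrib, prod_const, ← Real.exp_sum, sum_sub_distrib, ← sum_div] at h1
  have h2 : (∑ b ∈ B, (b : ℝ)) / Q - ∑ _b ∈ B, (1 : ℝ) ≤ w := by
    have : (∑ b ∈ B, (b : ℝ)) ≤ B.card * Q + w * Q := by
      have := (Nat.cast_le (α := ℝ)).2 h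
      push_cast at this
      exact this
    rw [sum_const, nsmul_eq_mul, mul_one, sub_le_iff_le_add, div_le_iff₀ hq]
    linarith
  have h3 : Real.exp (w : ℝ) ≤ 3 ^ w := by
    rw [← mul_one (w : ℝ), Real.exp_nat_mul]
    exact pow_le_pow_left₀ (Real.exp_pos _).le (by linarith [Real.exp_one_lt_d9]) _
  have h4 := h1.trans (mul_le_mul_of_nonneg_left ((Real.exp_le_exp.2 h2).trans h3) (by positivity))
  refine (Nat.cast_le (α := ℝ)).1 ?_
  push_cast
  exact h4

lemma L3 (Q X s : ℕ) (hX : 1 ≤ X) (hQ : 9 * X < Q) (A B : Finset ℕ)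
    (hA : ∀ a ∈ A, 2 ≤ a ∧ a ≤ Q) (hB : ∀ b ∈ B, Q + (3 * X + 1) ≤ b)
    (hs : ∑ a ∈ A, a = s + ∑ b ∈ B, b) (hp : ∏ a ∈ A, a ≤ X * ∏ b ∈ B, b) : B = ∅ := by
  by_contra hne
  have hv : 1 ≤ B.card := card_pos.2 (nonempty_iff_ne_empty.2 hne)
  have h1 := card_nsmul_le_sum B (fun b => b) _ hB
  simp only [smul_eq_mul] at h1
  obtain ⟨u, r, hr, hu, hH⟩ := L1 Q (by omega) A hA
  have h2 : B.card * Q + (3 * X + 1) ≤ ∑ b ∈ B, b := by nlinarith
  have huv : B.card ≤ u := by
    by_contra hh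
    have : (u + 1) * Q ≤ B.card * Q := Nat.mul_le_mul_right _ (by omega)
    rw [add_mul] at this
    omega
  obtain ⟨w, rfl⟩ : ∃ w, u = B.card + w := ⟨u - B.card, by omega⟩
  rw [add_mul] at hu
  have h3 := L2 Q (w + 1) (by omega) B (by rw [add_mul]; omega)
  have h4 : Q ^ B.card * (Q ^ w * H r) ≤ Q ^ B.card * (2 * X * 3 ^ (w + 1)) := by
    calc _ = Q ^ (B.card + w) * H r := by ring
      _ ≤ 2 * (X * (Q ^ B.card * 3 ^ (w + 1))) :=
        hH.trans (Nat.mul_le_mul_left _ (hp.trans (Nat.mul_le_mul_left _ h3)))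
      _ = _ := by ring
  have h5 := Nat.le_of_mul_le_mul_left h4 (pow_pos (by omega) _)
  rcases w with _ | w
  · unfold H at h5
    split_ifs at h5 <;> simp at h5 hu <;> omega
  · have h6 : 2 ≤ H r := by unfold H; split_ifs <;> omega
    have h7 : 3 ^ w ≤ Q ^ w := Nat.pow_le_pow_left (by omega) _
    have h8 : 0 < 3 ^ w := by positivity
    have h9 : 3 ^ w * Q * 2 ≤ Q ^ (w + 1) * H r := by
      rw [pow_succ]
      exact Nat.mul_le_mul (Nat.mul_le_mul_right _ h7) h6
    rw [pow_succ 3, pow_succ 3] at h5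
    nlinarith

lemma gap (M : ℕ) : ∃ Q, M ≤ Q ∧ ∀ p : ℕ, p.Prime → Q < p → Q + M ≤ p := by
  refine ⟨M.factorial + 1, (Nat.self_le_factorial M).trans (by omega), fun p hp h => ?_⟩
  by_contra hh
  obtain ⟨i, rfl⟩ : ∃ i, p = M.factorial + i := ⟨p - M.factorial, by omega⟩
  have hd : i ∣ M.factorial + i :=
    dvd_add (Nat.dvd_factorial (by omega) (by omega)) dvd_rfl
  have := M.factorial_pos
  rcases (Nat.dvd_prime hp).1 hd with h1 | h1 <;> omega

def cb (m : ℕ) : ℕ → ℕ → Bool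
  | 0, _ => false
  | f + 1, d => if m % (d + 2) = 0 then decide (d + 2 < m) else cb m f (d + 1)

abbrev C (m : ℕ) : Prop := cb m 1830 0 = true

lemma notcb {m : ℕ} (h : m.Prime) : ∀ f d, ¬ cb m f d = true := by
  intro f
  induction f with
  | zero => simp [cb]
  | succ f ih =>
    intro d
    unfold cb
    split_ifs with h3
    · rw [decide_eq_true_eq]
      rcases (Nat.dvd_prime h).1 (Nat.dvd_of_mod_eq_zero h3) with h4 | h4 <;> omega
    · exact ih _

lemma notC {m : ℕ} (h : m.Prime) : ¬ C m := notcb h _ _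

lemma chk2 : ∀ a < 290, 2 ≤ a → C a ∨ C (3323524 - a) := by decide +kernel

lemma chk3 : ∀ a < 290, 2 ≤ a → C a ∨ C (3323522 - a) ∨ 143 ≤ a := by decide +kernel

lemma two {a b : ℕ} (ha : a.Prime) (hb : b.Prime) (hab : a ≤ b) (hs : a + b = 3323524) :
    947196645 < a * b := by
  by_cases h : a < 290
  · rcases chk2 a h ha.two_le with h1 | h1
    · exact absurd h1 (notC ha)
    · rw [show 3323524 - a = b by omega] at h1
      exact absurd h1 (notC hb)
  · nlinarith

lemma three' {a b : ℕ} (ha : a.Prime) (hb : b.Prime) (hab : a ≤ b) (hs : a + b = 3323522) :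
    947196645 < 2 * (a * b) := by
  by_cases h : a < 143
  · rcases chk3 a (by omega) ha.two_le with h1 | h1 | h1
    · exact absurd h1 (notC ha)
    · rw [show 3323522 - a = b by omega] at h1
      exact absurd h1 (notC hb)
    · omega
  · nlinarith

lemma three {a b : ℕ} (ha : a.Prime) (hb : b.Prime) (hs : a + b = 3323522) :
    947196645 < 2 * (a * b) := by
  rcases le_total a b with h | h
  · exact three' ha hb h hs
  · rw [mul_comm a b]
    exact three' hb ha h (by omega)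

lemma F (A : Finset ℕ) (h : Part 3323524 A) (hp : ∏ a ∈ A, a ≤ 947196645) : 4 ≤ A.card := by
  obtain ⟨h1, h2⟩ := h
  by_contra hc
  have : A.card = 0 ∨ A.card = 1 ∨ A.card = 2 ∨ A.card = 3 := by omega
  rcases this with h | h | h | h
  · rw [card_eq_zero.1 h] at h2
    simp at h2
  · obtain ⟨a, rfl⟩ := card_eq_one.1 h
    have := h1 a (by simp)
    rw [sum_singleton] at h2
    rcases this.eq_two_or_odd with h | h <;> omega
  · obtain ⟨a, b, hab, rfl⟩ := card_eq_two.1 h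
    rw [sum_pair hab] at h2
    rw [prod_pair hab] at hp
    rcases le_total a b with h | h
    · have := two (h1 a (by simp)) (h1 b (by simp)) h h2
      omega
    · have := two (h1 b (by simp)) (h1 a (by simp)) h (by omega)
      rw [mul_comm] at this
      omega
  · obtain ⟨a, b, c, hab, hac, hbc, rfl⟩ := card_eq_three.1 h
    rw [sum_insert (by simp [hab, hac]), sum_pair hbc] at h2
    rw [prod_insert (by simp [hab, hac]), prod_pair hbc] at hp
    have pa := h1 a (by simp)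
    have pb := h1 b (by simp)
    have pc := h1 c (by simp)
    rcases pa.eq_two_or_odd with ha | ha
    · have := three pb pc (by omega)
      subst ha
      omega
    rcases pb.eq_two_or_odd with hb | hb
    · have := three pa pc (by omega)
      subst hb
      nlinarith
    rcases pc.eq_two_or_odd with hc | hc
    · have := three pa pb (by omega)
      subst hc
      nlinarith
    omega

theorem result : ∃ (n : ℕ) (S T : Finset ℕ), 2 ≤ n ∧ Part n S ∧ Part n T ∧
    (∀ U, Part n U → ∏ p ∈ U, p ≤ ∏ p ∈ S, p) ∧ S.card + 2 ≤ T.card := by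
  classical
  obtain ⟨Q, hQ, hg⟩ := gap 10000000000
  obtain ⟨N, hN⟩ : ∃ N : Finset ℕ, ∀ p, p ∈ N ↔ p.Prime ∧ p ≤ Q :=
    ⟨(range (Q + 1)).filter Nat.Prime, fun p => by simp [Nat.lt_succ_iff, and_comm]⟩
  have hA0 : ({3, 5, 19, 3323497} : Finset ℕ) ⊆ N := by
    intro p hp
    simp only [mem_insert, mem_singleton] at hp
    rcases hp with rfl | rfl | rfl | rfl <;> exact (hN _).2 ⟨by norm_num, by omega⟩
  have hT0 : ({311, 3323213} : Finset ℕ) ⊆ N := by
    intro p hp
    simp only [mem_insert, mem_singleton] at hp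
    rcases hp with rfl | rfl <;> exact (hN _).2 ⟨by norm_num, by omega⟩
  have s1 := sum_sdiff (f := fun p => p) hA0
  have s2 := sum_sdiff (f := fun p => p) hT0
  have p1 := prod_sdiff (f := fun p => p) hA0
  rw [show ∑ p ∈ ({3, 5, 19, 3323497} : Finset ℕ), p = 3323524 by decide +kernel] at s1
  rw [show ∑ p ∈ ({311, 3323213} : Finset ℕ), p = 3323524 by decide +kernel] at s2
  rw [show ∏ p ∈ ({3, 5, 19, 3323497} : Finset ℕ), p = 947196645 by decide +kernel] at p1
  obtain ⟨n, hn⟩ : ∃ n, n = ∑ p ∈ N \ {311, 3323213}, p := ⟨_, rfl⟩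
  have hT : Part n (N \ {311, 3323213}) := ⟨fun p hp => ((hN p).1 (mem_sdiff.1 hp).1).1, hn.symm⟩
  have hU : Part n (N \ {3, 5, 19, 3323497}) :=
    ⟨fun p hp => ((hN p).1 (mem_sdiff.1 hp).1).1, by omega⟩
  have hmem : ∀ U, Part n U → U ∈ (range (n + 1)).powerset.filter (Part n) := by
    intro U hU
    refine mem_filter.2 ⟨mem_powerset.2 fun p hp => mem_range.2 ?_, hU⟩
    have := single_le_sum (f := fun p => p) (fun _ _ => Nat.zero_le _) hp
    have := hU.2
    omega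
  obtain ⟨S, hS, hmax⟩ := exists_max_image _ (fun U : Finset ℕ => ∏ p ∈ U, p) ⟨_, hmem _ hT⟩
  have hS' := (mem_filter.1 hS).2
  have h2n : 2 ≤ n := by
    have : 2 ∈ N \ {311, 3323213} := mem_sdiff.2 ⟨(hN 2).2 ⟨by norm_num, by omega⟩, by simp⟩
    exact hn ▸ single_le_sum (f := fun p => p) (fun _ _ => Nat.zero_le _) this
  refine ⟨n, S, _, h2n, hS', hT, fun U hU => hmax U (hmem U hU), ?_⟩
  have a1 := sum_sdiff (f := fun p => p) (inter_subset_left : N ∩ S ⊆ N)
  have a2 := sum_sdiff (f := fun p => p) (inter_subset_right : N ∩ S ⊆ S)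
  have b1 := prod_sdiff (f := fun p => p) (inter_subset_left : N ∩ S ⊆ N)
  have b2 := prod_sdiff (f := fun p => p) (inter_subset_right : N ∩ S ⊆ S)
  have hpos : 0 < ∏ p ∈ N ∩ S, p :=
    prod_pos fun p hp => ((hN p).1 (mem_inter.1 hp).1).1.pos
  have hle := hmax _ (hmem _ hU)
  have hsum : ∑ p ∈ N \ (N ∩ S), p = 3323524 + ∑ p ∈ S \ (N ∩ S), p := by
    have := hS'.2
    omega
  have hprod : ∏ p ∈ N \ (N ∩ S), p ≤ 947196645 * ∏ p ∈ S \ (N ∩ S), p := by
    refine Nat.le_of_mul_le_mul_right ?_ hpos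
    rw [b1, mul_assoc, b2, ← p1, mul_comm]
    exact Nat.mul_le_mul_left _ hle
  have hB := L3 Q 947196645 3323524 (by omega) (by omega) _ _
    (fun a ha => ⟨((hN a).1 (mem_sdiff.1 ha).1).1.two_le, ((hN a).1 (mem_sdiff.1 ha).1).2⟩)
    (fun b hb => by
      have h1 := mem_sdiff.1 hb
      have h2 := hS'.1 b h1.1
      have h3 : Q < b := by
        by_contra hh
        exact h1.2 (mem_inter.2 ⟨(hN b).2 ⟨h2, by omega⟩, h1.1⟩)
      have := hg b h2 h3
      omega) hsum hprod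
  rw [hB] at hsum hprod
  rw [sum_empty] at hsum
  rw [prod_empty] at hprod
  have h4 := F (N \ (N ∩ S)) ⟨fun p hp => ((hN p).1 (mem_sdiff.1 hp).1).1, hsum⟩ hprod
  have c1 := card_sdiff_add_card_eq_card (inter_subset_left : N ∩ S ⊆ N)
  have c2 := card_sdiff_add_card_eq_card (inter_subset_right : N ∩ S ⊆ S)
  have c3 := card_sdiff_add_card_eq_card hT0
  rw [hB, card_empty] at c2
  rw [card_pair (by norm_num)] at c3
  omega

end Pool.Agent.Results.MP_60b32f_nt.Two
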